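import Pool.Agent.Helper21_RDO.NCM
import Pool.Agent.Helper44_RDO.KNE
import Pool.Agent.Helper77_RDO.DOM
import Pool.Agent.Helper84_RDO.ROT
import Pool.Agent.Helper7_RDO.RCP
import Pool.Agent.Helper15_RDO.ANG
import Pool.Agent.Helper13_RDO.CPA
import Pool.Agent.Helper91_RDO.CNF
import Pool.Agent.Helper59_RDO.RTA
import Pool.Agent.Helper60_RDO.LAT
import Pool.Agent.Helper92_RDO.DSC
import Pool.Agent.Helper60_RDO.MAI

/-!
# Families of sets which lie in discs of diameter `d`: the constant `0.917`

`result` : let a finite family of compact convex plane sets of common area `a`, perimeter `p` and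
diameter `d > 0`, with union of area `A`, be such that every member lies in some closed disc of
diameter `d` (for example: congruent discs, centrally symmetric members, right or obtuse triangles).
Then some subfamily with pairwise disjoint interiors covers area at least `0.917 * a / (π d ^ 2) * A`.

Proof (Pool/Agent/RDO/Stmts.lean): for discs of radius `1` with union `U` let `c z` be a centre nearest
to `z`.  Take a hexagonal lattice of minimal distance `s = 59 / 15 < 4` with random position and random
rotation, select the disc of `c z` for the lattice points `z` in `U`, and remove `z` if the disc of `c z`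
overlaps the one of `c (z + s e)`, `e` one of three directions of the lattice.  In this case one of the two
ends has `⟨c z - z, ± e⟩ ≥ (s - 2) / 2`, and by Kneser's lemma (`r ^ 2 |⋃ B (c i, 1)| ≤ |⋃ B (c i, r)|`) and
the rotation this has at most the probability `κ` = part of the disc beyond `(s - 2) / 2`.  So
`|S| ≥ (2 / (√3 s ^ 2)) (1 - 6 κ) |U|`.
-/

set_option autoImplicit false

open MeasureTheory

namespace Pool.Agent.Results.MP_b7794d_co.CircumdiscConstant

open Pool.Agent.RDO in
/-- Let a finite family of compact convex plane sets of common area `a`, perimeter `p` and diameter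
`d > 0` be such that every member lies in some closed disc of diameter `d`. Then some subfamily with
pairwise disjoint interiors covers at least the fraction `0.917 * a / (π d ^ 2)` of the area of the
union. -/
theorem result :
    ∀ (n : ℕ) (K : Fin n → Set (EuclideanSpace ℝ (Fin 2))) (a p d : ℝ),
      0 < d →
      (∀ i, Convex ℝ (K i) ∧ IsCompact (K i) ∧
        (volume (K i)).toReal = a ∧
        (MeasureTheory.Measure.hausdorffMeasure 1 (frontier (K i))).toReal = p ∧
        Metric.diam (K i) = d) →
      (∀ i, ∃ m : EuclideanSpace ℝ (Fin 2), K i ⊆ Metric.closedBall m (d / 2)) →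
      ∃ S : Finset (Fin n),
        (S : Set (Fin n)).Pairwise
          (fun i j => Disjoint (interior (K i)) (interior (K j))) ∧
        917 / 1000 * (a / (Real.pi * d ^ 2)) * (volume (⋃ i, K i)).toReal ≤
          (volume (⋃ i ∈ S, K i)).toReal :=
  H60.mai (H92.dsc H21.ncm (H15.ang (H77.dom H44.kne) H84.rot H7.rcp) H13.cpa H91.cnf H59.rta
    H60.lat)

end Pool.Agent.Results.MP_b7794d_co.CircumdiscConstant
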