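import Mathlib
import Pool.Agent.Helper35_RADO.Classes
import Pool.Agent.Helper11_Rado.HexagonalConstant

/-!
# Families whose difference bodies lie in hexagons of total area at most `π d²`

`result` : let a finite family of compact convex plane sets of common area `a`, perimeter `p` and
diameter `d > 0`, with union of area `A`, and finitely many bounded sets
`H j = {x | |⟪u j k, x⟫| ≤ 1, k = 0, 1, 2}` (hexagons or parallelograms centred at the origin) be
such that for every member `K` the difference set `K - K` is contained in some `H j`, and let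
`V = ∑ |H j|`.  Then some subfamily with pairwise disjoint interiors covers area at least
`a / min (V, 2 √3 d ^ 2) * A`, and, if `V ≤ π d ^ 2`, at least `a / (π d ^ 2) * A`, the bound asked
for in Q1.

Proof: a hexagon `H j` has a lattice tiling; the lattice has no nonzero point in the interior of
`2 H j`, so two members of the class `j` that contain points congruent modulo the lattice have
disjoint interiors; averaging over the translates of the lattice (R. Rado's method) gives in the
class `j` a subfamily of at least `A j / |H j|` members, where `A j` is the area of the union of the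
class.  The largest of these subfamilies has at least `A / V` members.  The value `2 √3 d ^ 2` comes
from the regular hexagon circumscribed about the disc of radius `d`, which contains `K - K` for
every member `K`.
-/

set_option autoImplicit false

open MeasureTheory Module Submodule
open scoped ENNReal Pointwise

namespace Pool.Agent.Results.MP_b7794d_co.HexagonClasses

open Pool.Agent.Helper35_RADO in
theorem bound (n m : ℕ) (K : Fin n → Set (EuclideanSpace ℝ (Fin 2))) (a : ℝ)
    (u : Fin m → Fin 3 → EuclideanSpace ℝ (Fin 2))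
    (hK : ∀ i, Convex ℝ (K i) ∧ IsCompact (K i) ∧ (volume (K i)).toReal = a)
    (hb : ∀ j, Bornology.IsBounded {x | ∀ k, |(inner ℝ (u j k) x : ℝ)| ≤ 1})
    (hcls : ∀ i, ∃ j, ∀ x ∈ K i, ∀ y ∈ K i, ∀ k, |(inner ℝ (u j k) (x - y) : ℝ)| ≤ 1) :
    ∃ S : Finset (Fin n),
      (S : Set (Fin n)).Pairwise
        (fun i j => Disjoint (interior (K i)) (interior (K j))) ∧
      ∀ v : ℝ, ∑ j, (volume {x | ∀ k, |(inner ℝ (u j k) x : ℝ)| ≤ 1}).toReal ≤ v →
        a / v * (volume (⋃ i, K i)).toReal ≤ (volume (⋃ i ∈ S, K i)).toReal := by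
  rcases isEmpty_or_nonempty (Fin n) with hn | hn
  · refine ⟨∅, by simp, by simp⟩
  obtain ⟨i₀⟩ := hn
  have ha0 : 0 ≤ a := by rw [← (hK i₀).2.2]; exact ENNReal.toReal_nonneg
  rcases ha0.eq_or_lt with ha | ha
  · refine ⟨∅, by simp, by simp [← ha]⟩
  have hint : ∀ i, (interior (K i)).Nonempty := fun i => by
    refine Helper11_Rado.interior_nonempty_of_pos (hK i).1 fun h => ?_
    have := (hK i).2.2
    rw [h] at this
    simp at this
    exact ha.ne this
  obtain ⟨S, hS, hvS⟩ := classes K (fun i => (hK i).2.1) hint u (fun j => volume (HX (u j)))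
    (fun j => adm_hex (u j) (hb j)) hcls
  have hfin : ∀ j, volume (HX (u j)) ≠ ∞ := fun j => (hb j).measure_lt_top.ne
  set V : ℝ := ∑ j, (volume (HX (u j))).toReal with hV
  have hV' : (∑ j, volume (HX (u j))) = ENNReal.ofReal V := by
    rw [hV, ENNReal.ofReal_sum_of_nonneg (fun j _ => ENNReal.toReal_nonneg)]
    exact Finset.sum_congr rfl fun j _ => (ENNReal.ofReal_toReal (hfin j)).symm
  have hV0 : 0 ≤ V := Finset.sum_nonneg fun j _ => ENNReal.toReal_nonneg
  have hA : (volume (⋃ i, K i)).toReal ≤ S.card * V := by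
    rw [hV'] at hvS
    have := ENNReal.toReal_mono (by finiteness) hvS
    rwa [ENNReal.toReal_mul, ENNReal.toReal_natCast, ENNReal.toReal_ofReal hV0] at this
  have hB := Helper11_Rado.volume_biUnion_of_disjoint_interior K a hK S hS
  refine ⟨S, hS, fun v hv => ?_⟩
  have hv' : V ≤ v := hv
  rcases (hV0.trans hv').eq_or_lt with h0 | h0
  · rw [← h0, div_zero, zero_mul]
    exact ENNReal.toReal_nonneg
  calc a / v * (volume (⋃ i, K i)).toReal ≤ a / v * (S.card * V) := by gcongr
    _ ≤ a / v * (S.card * v) := by gcongr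
    _ = S.card * a := by field_simp
    _ ≤ _ := hB

/-- Let a finite family of compact convex plane sets of common area `a`, perimeter `p` and diameter
`d > 0` be such that the difference set `K - K` of every member `K` is contained in one of finitely
many bounded sets `{x | |⟪u j k, x⟫| ≤ 1, k = 0, 1, 2}`, and let `V` be the sum of the areas of
these sets.  Then some subfamily with pairwise disjoint interiors covers at least the fraction
`a / min (V, 2 √3 d ^ 2)` of the area of the union, and at least the fraction `a / (π d ^ 2)` if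
`V ≤ π d ^ 2`. -/
theorem result :
    ∀ (n m : ℕ) (K : Fin n → Set (EuclideanSpace ℝ (Fin 2))) (a p d : ℝ)
      (u : Fin m → Fin 3 → EuclideanSpace ℝ (Fin 2)),
      0 < d →
      (∀ i, Convex ℝ (K i) ∧ IsCompact (K i) ∧
        (volume (K i)).toReal = a ∧
        (MeasureTheory.Measure.hausdorffMeasure 1 (frontier (K i))).toReal = p ∧
        Metric.diam (K i) = d) →
      (∀ j, Bornology.IsBounded {x | ∀ k, |(inner ℝ (u j k) x : ℝ)| ≤ 1}) →
      (∀ i, ∃ j, ∀ x ∈ K i, ∀ y ∈ K i, ∀ k, |(inner ℝ (u j k) (x - y) : ℝ)| ≤ 1) →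
      ∃ S : Finset (Fin n),
        (S : Set (Fin n)).Pairwise
          (fun i j => Disjoint (interior (K i)) (interior (K j))) ∧
        a / min (∑ j, (volume {x | ∀ k, |(inner ℝ (u j k) x : ℝ)| ≤ 1}).toReal)
            (2 * √3 * d ^ 2) * (volume (⋃ i, K i)).toReal ≤ (volume (⋃ i ∈ S, K i)).toReal ∧
        (∑ j, (volume {x | ∀ k, |(inner ℝ (u j k) x : ℝ)| ≤ 1}).toReal ≤ Real.pi * d ^ 2 →
          a / (Real.pi * d ^ 2) * (volume (⋃ i, K i)).toReal ≤
            (volume (⋃ i ∈ S, K i)).toReal) := by
  intro n m K a p d u hd hK hb hcls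
  rcases le_or_gt (∑ j, (volume {x | ∀ k, |(inner ℝ (u j k) x : ℝ)| ≤ 1}).toReal)
    (2 * √3 * d ^ 2) with hV | hV
  · obtain ⟨S, hS, h⟩ := bound n m K a u (fun i => ⟨(hK i).1, (hK i).2.1, (hK i).2.2.1⟩) hb hcls
    refine ⟨S, hS, ?_, fun h1 => h _ h1⟩
    rw [min_eq_left hV]
    exact h _ le_rfl
  · obtain ⟨S, hS, h⟩ :=
      Pool.Agent.Results.MP_b7794d_co.HexagonalConstant.result n K a p d hd hK
    refine ⟨S, hS, ?_, fun h1 => ?_⟩
    · rw [min_eq_right hV.le]
      exact h
    · exfalso
      have h2 : Real.pi < 2 * √3 := by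
        have h3 : (1.7 : ℝ) ≤ √3 := Real.le_sqrt_of_sq_le (by norm_num)
        have := Real.pi_lt_d2
        linarith
      have h4 : 0 < d ^ 2 := by positivity
      nlinarith

end Pool.Agent.Results.MP_b7794d_co.HexagonClasses
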