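import Mathlib
import Pool.Agent.Helper11_Segments.Plane

set_option autoImplicit false

open MeasureTheory

namespace Pool.Agent.Results.MP_b7794d_co.SegmentFamilies

/-- Let `F` be an arbitrary (finite or infinite) family of segments of length at most `d` in the
Euclidean plane, given by their pairs of endpoints. If `F` has no `k + 1` pairwise disjoint members,
then the union of `F` has (outer) area at most `k * (π * d ^ 2)`. -/
theorem result :
    ∀ (d : ℝ) (k : ℕ) (F : Set (EuclideanSpace ℝ (Fin 2) × EuclideanSpace ℝ (Fin 2))),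
      (∀ s ∈ F, dist s.1 s.2 ≤ d) →
      (∀ T : Finset (EuclideanSpace ℝ (Fin 2) × EuclideanSpace ℝ (Fin 2)), ↑T ⊆ F →
        (T : Set (EuclideanSpace ℝ (Fin 2) × EuclideanSpace ℝ (Fin 2))).Pairwise
          (fun s t => Disjoint (segment ℝ s.1 s.2) (segment ℝ t.1 t.2)) → T.card ≤ k) →
      volume (⋃ s ∈ F, segment ℝ s.1 s.2) ≤ ENNReal.ofReal (k * (Real.pi * d ^ 2)) :=
  fun d k F hlen hk => Helper11_Segments.volume_union_segments d k F hlen hk

end Pool.Agent.Results.MP_b7794d_co.SegmentFamilies
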