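import Mathlib
import Pool.Agent.Helper11_Rado.Select
import Pool.Agent.Helper11_Exact.Core

set_option autoImplicit false

open MeasureTheory
open scoped ENNReal Pointwise

namespace Pool.Agent.Results.MP_b7794d_co.ThinExact

/-- There is an absolute constant `η > 0` such that every finite family of compact convex plane sets
of common area `a ≤ η d ^ 2`, perimeter `p` and diameter `d > 0` has a subfamily with pairwise
disjoint interiors covering at least the fraction `a / (π d ^ 2)` of the area of the union. -/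
theorem result :
    ∃ η : ℝ, 0 < η ∧
      ∀ (n : ℕ) (K : Fin n → Set (EuclideanSpace ℝ (Fin 2))) (a p d : ℝ),
        0 < d →
        a ≤ η * d ^ 2 →
        (∀ i, Convex ℝ (K i) ∧ IsCompact (K i) ∧
          (volume (K i)).toReal = a ∧
          (MeasureTheory.Measure.hausdorffMeasure 1 (frontier (K i))).toReal = p ∧
          Metric.diam (K i) = d) →
        ∃ S : Finset (Fin n),
          (S : Set (Fin n)).Pairwise
            (fun i j => Disjoint (interior (K i)) (interior (K j))) ∧
          (a / (Real.pi * d ^ 2)) * (volume (⋃ i, K i)).toReal ≤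
            (volume (⋃ i ∈ S, K i)).toReal := by
  obtain ⟨η, hη, hcore⟩ := Helper11_Exact.exact_core
  refine ⟨η, hη, fun n K a p d hd had hK => ?_⟩
  rcases isEmpty_or_nonempty (Fin n) with hn | ⟨⟨i₀⟩⟩
  · exact ⟨∅, by simp, by simp⟩
  have ha0 : 0 ≤ a := by rw [← (hK i₀).2.2.1]; exact ENNReal.toReal_nonneg
  have hdi : d⁻¹ ≠ 0 := inv_ne_zero hd.ne'
  have hne : ∀ i, (K i).Nonempty := fun i => by
    rcases (K i).eq_empty_or_nonempty with h | h
    · exfalso
      have := (hK i).2.2.2.2
      rw [h, Metric.diam_empty] at this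
      exact hd.ne this
    · exact h
  set K' : Fin n → Set (EuclideanSpace ℝ (Fin 2)) := fun i => d⁻¹ • K i with hK'
  have hvolscale : ∀ s : Set (EuclideanSpace ℝ (Fin 2)),
      volume (d⁻¹ • s) = ENNReal.ofReal ((d ^ 2)⁻¹) * volume s := by
    intro s
    rw [Measure.addHaar_smul, finrank_euclideanSpace_fin, inv_pow, abs_of_pos (by positivity)]
  have hprops : ∀ i, Convex ℝ (K' i) ∧ IsCompact (K' i) ∧ (K' i).Nonempty ∧
      Metric.diam (K' i) = 1 ∧ volume (K' i) ≤ ENNReal.ofReal η := by
    intro i
    obtain ⟨h1, h2, h3, -, h5⟩ := hK i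
    refine ⟨h1.smul _, h2.smul _, (hne i).smul_set, ?_, ?_⟩
    · rw [hK', diam_smul₀, h5, Real.norm_of_nonneg (by positivity), inv_mul_cancel₀ hd.ne']
    · rw [hK', hvolscale, ← ENNReal.ofReal_toReal h2.measure_lt_top.ne, h3,
        ← ENNReal.ofReal_mul (by positivity)]
      refine ENNReal.ofReal_le_ofReal ?_
      rw [inv_mul_le_iff₀ (by positivity)]
      linarith
  have hv := hcore n K' hprops
  obtain ⟨S, -, hS, hSc⟩ := Helper11_Thin.exists_nu K' Finset.univ
  have hSK : (S : Set (Fin n)).Pairwise (fun i j => Disjoint (interior (K i)) (interior (K j))) := by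
    intro i hi j hj hij
    have := hS hi hj hij
    rw [hK', interior_smul₀ hdi, interior_smul₀ hdi] at this
    rw [Set.disjoint_left] at this ⊢
    intro x hx hx'
    exact this (Set.smul_mem_smul_set hx) (Set.smul_mem_smul_set hx')
  refine ⟨S, hSK, ?_⟩
  have hU : (⋃ i, K' i) = d⁻¹ • ⋃ i, K i := by rw [Set.smul_set_iUnion]
  have hfin : volume (⋃ i, K i) ≠ ∞ := (isCompact_iUnion fun i => (hK i).2.1).measure_lt_top.ne
  rw [hU, hvolscale, ← ENNReal.ofReal_toReal hfin, ← ENNReal.ofReal_mul (by positivity),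
    ENNReal.ofReal_le_ofReal_iff (by positivity), inv_mul_le_iff₀ (by positivity), ← hSc] at hv
  have hB := Helper11_Rado.volume_biUnion_of_disjoint_interior K a
    (fun i => ⟨(hK i).1, (hK i).2.1, (hK i).2.2.1⟩) S hSK
  refine le_trans ?_ hB
  calc (a / (Real.pi * d ^ 2)) * (volume (⋃ i, K i)).toReal
      ≤ (a / (Real.pi * d ^ 2)) * (d ^ 2 * (Real.pi * S.card)) := by
        have : 0 ≤ a / (Real.pi * d ^ 2) := by positivity
        gcongr
    _ = S.card * a := by field_simp

end Pool.Agent.Results.MP_b7794d_co.ThinExact
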